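import Pool.Graph.R_seed8.R496.FP.LO
import Pool.Graph.R_seed8.R496.FP.SG
import Pool.Graph.R_seed8.R496.FP.MA
import Pool.Graph.R_seed8.R496.FP.MI
import Pool.Graph.R_seed8.R496.FP.AV
import Pool.Graph.R_seed8.R496.FP.AM
import Pool.Graph.R_seed8.R496.FP.OR
import Pool.Graph.R_seed8.R496.FP.CR
import Pool.Graph.R_seed8.R496.FP.HO
import Pool.Graph.R_seed8.R496.FP.HT
import Pool.Graph.R_seed8.R496.FP.LC
import Pool.Graph.R_seed8.R496.FP.GB
import Pool.Graph.R_seed8.R496.FP.FA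
import Pool.Graph.R_seed8.R496.FP.FB
import Pool.Graph.R_seed8.R496.FP.IN
import Pool.Graph.R_seed8.R496.FP.EX
import Pool.Graph.R_seed8.R496.FP.M2
import Pool.Graph.R_pool_sql_team_seeded_3dad9d7b.NH18.PC.A5
import Pool.Agent.H32.TP.P3

/-!
# MP_0ad054_nt: a prime `p` and `p - 2` with at most three prime factors, for a positive proportion of the odd numbers

Q1 asks for a representation `n = x² + y² + z² + w²` of every odd `n` for which `p = x² + 3 y² + 5 z² + 7 w²` and `p - 2`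
are primes. For every `ε > 0` a positive proportion of the odd numbers `n ≤ N` have at least `c N / log² N` representations
for which `p` is an ACTUAL prime and `p - 2` has at most THREE prime factors, all of them at least `n ^ (1 / 4 - ε)`.

The proof feeds a lower bound for the number of primes `P ≤ N` with `P - 2 = P_3` (weighted linear sieve and the theorem of
Bombieri and Vinogradov, `Pool.Agent.H32.TP.p3`) into the transference of the library (`Pool.Agent.NH18.PC.tr`).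
-/

set_option autoImplicit false

open Finset

namespace Pool.Agent.Results.MP_0ad054_nt.ThreePrimeFactors

/-- the form `x² + 3 y² + 5 z² + 7 w²` at `v = (x, y, z, w)` -/
def p (v : Fin 4 → ℤ) : ℤ := v 0 ^ 2 + 3 * v 1 ^ 2 + 5 * v 2 ^ 2 + 7 * v 3 ^ 2

/-- the representations `n = x² + y² + z² + w²` for which the value `p = x² + 3 y² + 5 z² + 7 w²` belongs to `S` -/
def Rep (S : Set ℕ) (n : ℕ) : Set (Fin 4 → ℤ) :=
  {v | (n : ℤ) = v 0 ^ 2 + v 1 ^ 2 + v 2 ^ 2 + v 3 ^ 2 ∧ ∃ P : ℕ, P ∈ S ∧ (P : ℤ) = p v}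

/-- the primes `P` such that `P - 2` has at most three prime factors (counted with multiplicity), all of them at least `z` -/
def P3 (z : ℝ) : Set ℕ :=
  {P | P.Prime ∧ 2 < P ∧ (P - 2).primeFactorsList.length ≤ 3 ∧ ∀ q : ℕ, q.Prime → q ∣ P - 2 → z ≤ q}

lemma finite_rep (S : Set ℕ) (n : ℕ) : (Rep S n).Finite := by
  have hfin : (Set.univ.pi (fun _ : Fin 4 => Set.Icc (-(n : ℤ)) n)).Finite :=
    Set.Finite.pi' (fun _ => Set.finite_Icc _ _) |>.subset (by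
      intro v hv i
      exact hv i (Set.mem_univ i))
  refine hfin.subset ?_
  rintro v ⟨h, -⟩
  have key : ∀ a r : ℤ, 0 ≤ r → (n : ℤ) = a ^ 2 + r → a ∈ Set.Icc (-(n : ℤ)) n := by
    intro a r hr ha
    have h1 : a ^ 2 ≤ n := by linarith
    have h2 : |a| ≤ a ^ 2 := by
      rcases eq_or_ne a 0 with h0 | h0
      · simp [h0]
      · have h3 : 1 ≤ |a| := Int.one_le_abs h0
        rw [← sq_abs]; nlinarith
    exact abs_le.1 (h2.trans h1)
  intro i _
  fin_cases i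
  · exact key (v 0) (v 1 ^ 2 + v 2 ^ 2 + v 3 ^ 2) (by positivity) (by rw [h]; ring)
  · exact key (v 1) (v 0 ^ 2 + v 2 ^ 2 + v 3 ^ 2) (by positivity) (by rw [h]; ring)
  · exact key (v 2) (v 0 ^ 2 + v 1 ^ 2 + v 3 ^ 2) (by positivity) (by rw [h]; ring)
  · exact key (v 3) (v 0 ^ 2 + v 1 ^ 2 + v 2 ^ 2) (by positivity) (by rw [h]; ring)

/-- arbitrary dense subsets -/
theorem dense (η κ : ℝ) (hη : 0 < η) (hκ : 0 < κ) : ∃ c : ℝ, 0 < c ∧ ∃ N₀ : ℕ, ∀ N : ℕ, N₀ ≤ N →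
    ∀ S : Finset ℕ, (∀ P ∈ S, P.Prime ∧ N < 2 * P ∧ P ≤ N ∧
      ∀ l : ℕ, l.Prime → l ∣ P - 2 → (N : ℝ) ^ η < l) →
    κ * N / Real.log N ^ 2 ≤ S.card →
    c * N ≤ (({n : ℕ | n ≤ N ∧ Odd n ∧ c * N / Real.log N ^ 2 ≤ ((Rep S n).ncard : ℝ)}).ncard : ℝ) := by
  classical
  have hGB := Pool.Agent.R496.FP.gb
  have hFA := Pool.Agent.R496.FP.fa
  have hEX := Pool.Agent.R496.FP.ex
  have hFB := Pool.Agent.R496.FP.fb hGB
  have hIN := Pool.Agent.R496.FP.inn
  have hMI := Pool.Agent.R496.FP.mi hFA hFB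
  have hMA := Pool.Agent.R496.FP.ma hFA hFB hGB hIN
  have hOR := Pool.Agent.R496.FP.orr
  have hCR := Pool.Agent.R496.FP.cr
  have hHO := Pool.Agent.R496.FP.ho
  have hHT := Pool.Agent.R496.FP.ht
  have hLC := Pool.Agent.R496.FP.lc
  have hAM := Pool.Agent.R496.FP.am hOR hCR
  have hAV := Pool.Agent.R496.FP.av hGB hOR hHO hHT hLC
  have hSG := Pool.Agent.R496.FP.sg hOR hCR hLC hAM hAV
  have hη' : 0 < min η (1 / 2) := lt_min hη (by norm_num)
  obtain ⟨c, hc, N0, h⟩ := Pool.Agent.NH18.PC.tr hFA hEX hMI hMA hSG Pool.Agent.R496.FP.m2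
    {0, -2} (min η (1 / 2)) κ hη' hκ
  have hU : ({0, -2} : Finset ℤ).card = 2 := rfl
  rw [hU] at h
  refine ⟨c, hc, max N0 16, fun N hN S hS hcard => ?_⟩
  have hN16 : 16 ≤ N := (le_max_right _ _).trans hN
  have hNr : (16 : ℝ) ≤ N := by exact_mod_cast hN16
  obtain ⟨A, hA, hA2⟩ := h N ((le_max_left _ _).trans hN) S (by
    intro P hP
    obtain ⟨h1, h2, h3, h4⟩ := hS P hP
    refine ⟨h1, h2, h3, ?_⟩
    intro u hu l hl hlN hd
    rw [mem_insert, mem_singleton] at hu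
    rcases hu with rfl | rfl
    · rw [add_zero] at hd
      have hd' : l ∣ P := by exact_mod_cast hd
      have hlP : l = P := (Nat.prime_dvd_prime_iff_eq hl h1).1 hd'
      have e1 : (N : ℝ) < 2 * P := by exact_mod_cast h2
      have e2 : (N : ℝ) ^ (min η (1 / 2)) ≤ (N : ℝ) ^ (1 / 2 : ℝ) :=
        Real.rpow_le_rpow_of_exponent_le (by linarith) (min_le_right _ _)
      rw [← Real.sqrt_eq_rpow] at e2
      have e3 : (4 : ℝ) ≤ √(N : ℝ) := by
        rw [Real.le_sqrt' (by norm_num)]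
        linarith
      have e4 : √(N : ℝ) * √(N : ℝ) = N := Real.mul_self_sqrt (by linarith)
      rw [hlP] at hlN
      nlinarith
    · have e1 : ((P : ℤ) + -2) = ((P - 2 : ℕ) : ℤ) := by
        rw [Nat.cast_sub (by omega)]
        push_cast
        ring
      rw [e1] at hd
      have hd' : l ∣ P - 2 := by exact_mod_cast hd
      have e2 := h4 l hl hd'
      have e3 : (N : ℝ) ^ (min η (1 / 2)) ≤ (N : ℝ) ^ η :=
        Real.rpow_le_rpow_of_exponent_le (by linarith) (min_le_left _ _)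
      linarith) hcard
  refine hA.trans ?_
  have hfin : {n : ℕ | n ≤ N ∧ Odd n ∧ c * N / Real.log N ^ 2 ≤ ((Rep S n).ncard : ℝ)}.Finite :=
    (Set.finite_Iic N).subset fun n hn => hn.1
  have hsub : (A : Set ℕ) ⊆
      {n : ℕ | n ≤ N ∧ Odd n ∧ c * N / Real.log N ^ 2 ≤ ((Rep S n).ncard : ℝ)} := by
    intro n hn
    obtain ⟨h1, h2, h3, R, hR, hR2⟩ := hA2 n hn
    refine ⟨h2, h3, hR.trans ?_⟩
    have hs : (R : Set (Fin 4 → ℤ)) ⊆ Rep S n := by
      intro v hv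
      obtain ⟨P, hP, e1, e2⟩ := hR2 v hv
      exact ⟨e1, P, hP, e2⟩
    have h5 := Set.ncard_le_ncard hs (finite_rep S n)
    rw [Set.ncard_coe_finset] at h5
    exact_mod_cast h5
  have h6 := Set.ncard_le_ncard hsub hfin
  rw [Set.ncard_coe_finset] at h6
  exact_mod_cast h6

/-- **A prime and a number with at most three prime factors, for a positive proportion of the odd numbers.**

Let `ε > 0`. There is `c > 0` such that for all large `N` at least `c N` odd numbers `n ≤ N` have at least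
`c N / log² N` representations `n = x² + y² + z² + w²` for which `p = x² + 3 y² + 5 z² + 7 w²` is a prime and `p - 2` has at
most three prime factors (counted with multiplicity), all of them at least `n ^ (1 / 4 - ε)`. -/
theorem result :
    ∀ ε : ℝ, 0 < ε → ∃ c : ℝ, 0 < c ∧ ∃ N₀ : ℕ, ∀ N : ℕ, N₀ ≤ N →
      c * N ≤ (({n : ℕ | n ≤ N ∧ Odd n ∧ c * N / Real.log N ^ 2 ≤
        ((Rep (P3 ((n : ℝ) ^ (1 / 4 - ε))) n).ncard : ℝ)}).ncard : ℝ) := by
  classical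
  intro ε hε
  set ε' : ℝ := min ε (1 / 100) with hε'
  have hε'0 : 0 < ε' := lt_min hε (by norm_num)
  have hε'1 : ε' ≤ 1 / 100 := min_le_right _ _
  have hε'ε : ε' ≤ ε := min_le_left _ _
  obtain ⟨δ, hδ, Y0, HY⟩ := Pool.Agent.H32.TP.p3 ε' hε'0 hε'1
  obtain ⟨c, hc, N1, HN⟩ := dense (1 / 5) δ (by norm_num) hδ
  refine ⟨c, hc, max (max Y0 N1) 16, fun N hN => ?_⟩
  have hN1 : N1 ≤ N := ((le_max_right _ _).trans (le_max_left _ _)).trans hN
  have hN2 : Y0 ≤ N := ((le_max_left _ _).trans (le_max_left _ _)).trans hN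
  have hN16 : 16 ≤ N := (le_max_right _ _).trans hN
  have hNr : (16 : ℝ) ≤ N := by exact_mod_cast hN16
  have hmem : ∀ P ∈ Pool.Agent.H32.TP.g2 3 ((N : ℝ) ^ (1 / 4 - ε')) N, P.Prime ∧ N < 2 * P ∧ P ≤ N ∧
      (P - 2).primeFactorsList.length ≤ 3 ∧ ∀ q : ℕ, q.Prime → q ∣ (P - 2) →
        (N : ℝ) ^ (1 / 4 - ε') ≤ q := by
    intro P hP
    unfold Pool.Agent.H32.TP.g2 at hP
    rw [mem_filter, mem_Icc] at hP
    obtain ⟨⟨h1, h2⟩, h3, h4, h5, h6, h7⟩ := hP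
    have e1 : (N : ℝ) < 2 * P := by linarith
    exact ⟨h3, by exact_mod_cast e1, h2, h6, h7⟩
  have h := HN N hN1 (Pool.Agent.H32.TP.g2 3 ((N : ℝ) ^ (1 / 4 - ε')) N) (by
    intro P hP
    obtain ⟨h1, h2, h3, h4, h5⟩ := hmem P hP
    refine ⟨h1, h2, h3, fun l hl hld => lt_of_lt_of_le ?_ (h5 l hl hld)⟩
    exact Real.rpow_lt_rpow_of_exponent_lt (by linarith) (by linarith)) (HY N hN2)
  refine h.trans ?_
  have hfin : {n : ℕ | n ≤ N ∧ Odd n ∧ c * N / Real.log N ^ 2 ≤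
      ((Rep (P3 ((n : ℝ) ^ (1 / 4 - ε))) n).ncard : ℝ)}.Finite :=
    (Set.finite_Iic N).subset fun n hn => hn.1
  have hsub : {n : ℕ | n ≤ N ∧ Odd n ∧ c * N / Real.log N ^ 2 ≤
      ((Rep (Pool.Agent.H32.TP.g2 3 ((N : ℝ) ^ (1 / 4 - ε')) N) n).ncard : ℝ)} ⊆
      {n : ℕ | n ≤ N ∧ Odd n ∧ c * N / Real.log N ^ 2 ≤
        ((Rep (P3 ((n : ℝ) ^ (1 / 4 - ε))) n).ncard : ℝ)} := by
    rintro n ⟨h1, h2, h3⟩
    refine ⟨h1, h2, h3.trans ?_⟩
    have hn1 : (1 : ℝ) ≤ n := by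
      have : 1 ≤ n := h2.pos
      exact_mod_cast this
    have hnN : (n : ℝ) ≤ N := by exact_mod_cast h1
    have hz : (n : ℝ) ^ (1 / 4 - ε) ≤ (N : ℝ) ^ (1 / 4 - ε') := by
      calc (n : ℝ) ^ (1 / 4 - ε) ≤ (n : ℝ) ^ (1 / 4 - ε') :=
            Real.rpow_le_rpow_of_exponent_le hn1 (by linarith)
        _ ≤ (N : ℝ) ^ (1 / 4 - ε') := Real.rpow_le_rpow (by linarith) hnN (by linarith)
    have hs : Rep (Pool.Agent.H32.TP.g2 3 ((N : ℝ) ^ (1 / 4 - ε')) N) n ⊆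
        Rep (P3 ((n : ℝ) ^ (1 / 4 - ε))) n := by
      rintro v ⟨e1, P, hP, e2⟩
      obtain ⟨g1, g2, g3, g4, g5⟩ := hmem P hP
      exact ⟨e1, P, ⟨g1, by omega, g4, fun q hq hqd => hz.trans (g5 q hq hqd)⟩, e2⟩
    have h5 := Set.ncard_le_ncard hs (finite_rep _ n)
    exact_mod_cast h5
  have h6 := Set.ncard_le_ncard hsub hfin
  exact_mod_cast h6

end Pool.Agent.Results.MP_0ad054_nt.ThreePrimeFactors
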